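import Pool.Agent.Y358.IN.Ind

/-!
# Nowhere-zero 5-flows and balls

A counterexample to the 5-flow conjecture which is minimal in a class closed under contractions has
girth at least twelve and degrees at least three, and so it is not covered by few small balls.
-/

set_option autoImplicit false
set_option linter.unusedSectionVars false

namespace Pool.Agent.R129.Ball

open Finset Pool.Agent.TH676.Z Pool.Agent.Y335.FL Pool.Agent.Y358.IN

section cls

variable {V E : Type} [Fintype V] [DecidableEq V] [Fintype E] [DecidableEq E]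

/-- `b` is reached from `a` by at most `m` edges -/
inductive Near (src dst : E → V) : ℕ → V → V → Prop
  | refl (m : ℕ) (x : V) : Near src dst m x x
  | step {m : ℕ} {x y z : V} : Near src dst m x y → Adj src dst y z → Near src dst (m + 1) x z

theorem Near.succ {src dst : E → V} {m : ℕ} {a b : V} (h : Near src dst m a b) :
    Near src dst (m + 1) a b := by
  induction h with
  | refl m x => exact Near.refl _ _
  | step _ h2 ih => exact Near.step ih h2

theorem Near.ctr {src dst : E → V} {u v : V} {m : ℕ} {a b : V} (h : Near src dst m a b) :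
    Near (ctr u v ∘ src) (ctr u v ∘ dst) m (ctr u v a) (ctr u v b) := by
  induction h with
  | refl m x => exact Near.refl _ _
  | @step m x y z _ h2 ih =>
    by_cases h3 : Pool.Agent.TH676.Z.ctr u v y = Pool.Agent.TH676.Z.ctr u v z
    · rw [← h3]
      exact ih.succ
    · exact Near.step ih (adj_ctr h2 h3)

open Classical in
/-- the total weight of the balls which contain a vertex of degree at least three is at least one -/
def ClB {ι : Type} [Fintype ι] (r : ι → ℕ) (w : ι → ℝ) (src dst : E → V) : Prop :=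
  ∃ c : ι → V, ∀ x, 3 ≤ dg src dst x → 1 ≤ ∑ i, if Near src dst (r i) (c i) x then w i else 0

theorem ccB {ι : Type} [Fintype ι] (r : ι → ℕ) (w : ι → ℝ) (hw : ∀ i, 0 ≤ w i) :
    CC (V := V) (E := E) (ClB r w) := by
  classical
  intro src dst e h hne
  obtain ⟨c, hc⟩ := h
  refine ⟨fun i => ctr (src e) (dst e) (c i), ?_⟩
  intro x hx
  have hxv : x ≠ dst e := by
    rintro rfl
    rw [Ord.dg_ctr_v src dst hne] at hx
    omega
  have key : ∀ y, 3 ≤ dg src dst y → ctr (src e) (dst e) y = x →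
      1 ≤ ∑ i, if Near (ctr (src e) (dst e) ∘ src) (ctr (src e) (dst e) ∘ dst) (r i)
        (ctr (src e) (dst e) (c i)) x then w i else 0 := by
    intro y hy hyx
    refine (hc y hy).trans (sum_le_sum fun i _ => ?_)
    by_cases h1 : Near src dst (r i) (c i) y
    · have h5 := h1.ctr (u := src e) (v := dst e)
      rw [hyx] at h5
      rw [if_pos h1, if_pos h5]
    · rw [if_neg h1]
      split_ifs
      · exact hw i
      · exact le_rfl
  by_cases hxu : x = src e
  · subst hxu
    have h2 := Ord.dg_ctr_u src dst e hne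
    by_cases h4 : 3 ≤ dg src dst (src e)
    · exact key _ h4 (ctr_u _ _ hne)
    · exact key (dst e) (by omega) (ctr_v _ _)
  · exact key x (hx.trans (Ord.dg_ctr_other src dst hxu)) (ctr_of_ne hxv)

end cls

section tree

variable {V : Type} [Fintype V] [DecidableEq V] (G : SimpleGraph V)

open Classical in
/-- the ends of the paths of length `j` from `a` -/
noncomputable def Lv (j : ℕ) (a : V) : Finset V :=
  univ.filter (fun v => ∃ p : G.Walk a v, p.IsPath ∧ p.length = j)

variable {G}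

theorem mem_Lv {j : ℕ} {a v : V} : v ∈ Lv G j a ↔ ∃ p : G.Walk a v, p.IsPath ∧ p.length = j := by
  classical
  unfold Lv
  rw [mem_filter]
  exact ⟨fun h => h.2, fun h => ⟨mem_univ _, h⟩⟩

theorem Lv_zero (a : V) : Lv G 0 a = {a} := by
  ext v
  rw [mem_Lv, mem_singleton]
  constructor
  · rintro ⟨p, _, hp⟩
    exact (SimpleGraph.Walk.eq_of_length_eq_zero hp).symm
  · rintro rfl
    exact ⟨SimpleGraph.Walk.nil, SimpleGraph.Walk.IsPath.nil, rfl⟩

theorem Lv_disj (h12 : ∀ (w : V) (c : G.Walk w w), c.IsCycle → 12 ≤ c.length) {a : V} {i j : ℕ}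
    (hij : i ≠ j) (h : i + j ≤ 11) : Disjoint (Lv G i a) (Lv G j a) := by
  rw [disjoint_left]
  intro v hv hv'
  obtain ⟨p, hp, hpl⟩ := mem_Lv.1 hv
  obtain ⟨q, hq, hql⟩ := mem_Lv.1 hv'
  have e := Ord.uniq h12 hp hq (by omega)
  apply hij
  rw [← hpl, ← hql, e]

theorem Bs_sub {j : ℕ} {a y : V} (h : G.Adj a y) : Ord.Bs G j y a ⊆ Lv G (j + 1) a := by
  intro v hv
  obtain ⟨p, hp, hpl, hap⟩ := Ord.mem_Bs.1 hv
  exact mem_Lv.2 ⟨SimpleGraph.Walk.cons h p, (SimpleGraph.Walk.cons_isPath_iff h p).2 ⟨hp, hap⟩, by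
    rw [SimpleGraph.Walk.length_cons, hpl]⟩

open Classical in
theorem Lv_succ (j : ℕ) (a : V) :
    Lv G (j + 1) a = (univ.filter (fun y => G.Adj a y)).biUnion fun y => Ord.Bs G j y a := by
  ext v
  rw [mem_biUnion]
  constructor
  · intro hv
    obtain ⟨p, hp, hpl⟩ := mem_Lv.1 hv
    cases p with
    | nil => simp at hpl
    | @cons _ y _ h q =>
      rw [SimpleGraph.Walk.cons_isPath_iff] at hp
      rw [SimpleGraph.Walk.length_cons] at hpl
      exact ⟨y, mem_filter.2 ⟨mem_univ _, h⟩, Ord.mem_Bs.2 ⟨q, hp.1, by omega, hp.2⟩⟩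
  · rintro ⟨y, hy, hv⟩
    exact Bs_sub (mem_filter.1 hy).2 hv

theorem Lv_double (h12 : ∀ (w : V) (c : G.Walk w w), c.IsCycle → 12 ≤ c.length)
    (h3 : ∀ x y, G.Adj x y → ∃ a b c, G.Adj x a ∧ G.Adj x b ∧ G.Adj x c ∧ a ≠ b ∧ a ≠ c ∧ b ≠ c)
    {j : ℕ} (hj : j ≤ 3) (a : V) : 2 * (Lv G (j + 1) a).card ≤ (Lv G (j + 2) a).card := by
  classical
  rw [Lv_succ (j + 1) a, Lv_succ j a, card_biUnion (s := univ.filter (fun y => G.Adj a y))
    (t := fun y => Ord.Bs G (j + 1) y a)]
  · refine (Nat.mul_le_mul_left 2 card_biUnion_le).trans ?_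
    rw [mul_sum]
    refine sum_le_sum fun y hy => ?_
    exact Ord.step h12 h3 (mem_filter.1 hy).2.symm (by omega)
  · intro y hy z hz hne
    change Disjoint (Ord.Bs G (j + 1) y a) (Ord.Bs G (j + 1) z a)
    rw [disjoint_left]
    intro v hv hv'
    have hy' := (mem_filter.1 (mem_coe.1 hy)).2
    have hz' := (mem_filter.1 (mem_coe.1 hz)).2
    obtain ⟨p, hp, hpl, hap⟩ := Ord.mem_Bs.1 hv
    obtain ⟨q, hq, hql, haq⟩ := Ord.mem_Bs.1 hv'
    have e := Ord.uniq h12 ((SimpleGraph.Walk.cons_isPath_iff hy' p).2 ⟨hp, hap⟩)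
      ((SimpleGraph.Walk.cons_isPath_iff hz' q).2 ⟨hq, haq⟩) (by
        rw [SimpleGraph.Walk.length_cons, SimpleGraph.Walk.length_cons]
        omega)
    have e2 := congrArg SimpleGraph.Walk.snd e
    rw [SimpleGraph.Walk.snd_cons, SimpleGraph.Walk.snd_cons] at e2
    exact hne e2

theorem Lv_six (h12 : ∀ (w : V) (c : G.Walk w w), c.IsCycle → 12 ≤ c.length)
    (h3 : ∀ x y, G.Adj x y → ∃ a b c, G.Adj x a ∧ G.Adj x b ∧ G.Adj x c ∧ a ≠ b ∧ a ≠ c ∧ b ≠ c)
    {a y : V} (h : G.Adj a y) : 32 ≤ (Lv G 6 a).card :=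
  (Ord.card_Bs h12 h3 h.symm 5 le_rfl).trans (card_le_card (Bs_sub h))

open Classical in
/-- the vertices which are not isolated -/
noncomputable def Ni (G : SimpleGraph V) : Finset V := univ.filter (fun v => ∃ y, G.Adj v y)

theorem total (h12 : ∀ (w : V) (c : G.Walk w w), c.IsCycle → 12 ≤ c.length) {a y : V}
    (h : G.Adj a y) : ∑ j ∈ range 7, (Lv G j a).card ≤ (Ni G).card := by
  classical
  rw [← card_biUnion]
  · refine card_le_card ?_
    intro v hv
    obtain ⟨j, _, hv⟩ := mem_biUnion.1 hv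
    obtain ⟨p, _, _⟩ := mem_Lv.1 hv
    unfold Ni
    exact mem_filter.2 ⟨mem_univ _, Ord.nbr h p⟩
  · intro i hi j hj hij
    have h1 := mem_range.1 (mem_coe.1 hi)
    have h2 := mem_range.1 (mem_coe.1 hj)
    exact Lv_disj h12 hij (by omega)

/-- the number of the vertices in a ball of radius at most five -/
theorem ball (h12 : ∀ (w : V) (c : G.Walk w w), c.IsCycle → 12 ≤ c.length)
    (h3 : ∀ x y, G.Adj x y → ∃ a b c, G.Adj x a ∧ G.Adj x b ∧ G.Adj x c ∧ a ≠ b ∧ a ≠ c ∧ b ≠ c)
    {a y : V} (h : G.Adj a y) {r : ℕ} (hr : r ≤ 5) :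
    31 * ((range (r + 1)).biUnion fun j => Lv G j a).card + (2 ^ r - 1) * 33 ≤
      31 + (2 ^ r - 1) * (Ni G).card := by
  have h0 : (Lv G 0 a).card = 1 := by rw [Lv_zero, card_singleton]
  have d1 : 2 * (Lv G 1 a).card ≤ (Lv G 2 a).card := Lv_double h12 h3 (j := 0) (by omega) a
  have d2 : 2 * (Lv G 2 a).card ≤ (Lv G 3 a).card := Lv_double h12 h3 (j := 1) (by omega) a
  have d3 : 2 * (Lv G 3 a).card ≤ (Lv G 4 a).card := Lv_double h12 h3 (j := 2) (by omega) a
  have d4 : 2 * (Lv G 4 a).card ≤ (Lv G 5 a).card := Lv_double h12 h3 (j := 3) (by omega) a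
  have h6 := Lv_six h12 h3 h
  have ht := total h12 h
  have hb : ((range (r + 1)).biUnion fun j => Lv G j a).card ≤
      ∑ j ∈ range (r + 1), (Lv G j a).card := card_biUnion_le
  generalize ((range (r + 1)).biUnion fun j => Lv G j a).card = X at hb ⊢
  simp only [sum_range_succ, sum_range_zero, zero_add] at ht
  interval_cases r
  · simp only [sum_range_succ, sum_range_zero, zero_add] at hb
    omega
  · simp only [sum_range_succ, sum_range_zero, zero_add] at hb
    omega
  · simp only [sum_range_succ, sum_range_zero, zero_add] at hb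
    omega
  · simp only [sum_range_succ, sum_range_zero, zero_add] at hb
    omega
  · simp only [sum_range_succ, sum_range_zero, zero_add] at hb
    omega
  · simp only [sum_range_succ, sum_range_zero, zero_add] at hb
    omega

end tree

end Pool.Agent.R129.Ball
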