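import Pool.Agent.R129.Ball.Cls

/-!
# Nowhere-zero 5-flows of graphs which are covered by few small balls
-/

set_option autoImplicit false
set_option linter.unusedSectionVars false

namespace Pool.Agent.R129.Ball

open Finset Pool.Agent.TH676.Z Pool.Agent.Y335.FL Pool.Agent.Y358.IN

theorem near_walk {V E : Type} {s d : E → V} (G : SimpleGraph V)
    (hG : ∀ a b, G.Adj a b ↔ Adj s d a b) {m : ℕ} {a b : V} (h : Near s d m a b) :
    ∃ p : G.Walk a b, p.length ≤ m := by
  induction h with
  | refl m x => exact ⟨SimpleGraph.Walk.nil, Nat.zero_le _⟩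
  | @step m x y z _ h2 ih =>
    obtain ⟨p, hp⟩ := ih
    refine ⟨p.concat ((hG y z).2 h2), ?_⟩
    rw [SimpleGraph.Walk.length_concat]
    omega

/-- **Main step.** -/
theorem flow_of_ClB (hc : St_contract) {ι : Type} [Fintype ι] (r : ι → ℕ) (w : ι → ℝ)
    (hw : ∀ i, 0 ≤ w i) (h31 : ∑ i, w i * (2 ^ r i - 1) ≤ 31)
    (h126 : ∑ i, w i + 3 * ∑ i, w i * (2 ^ r i - 1) < 126)
    {V E : Type} [Fintype V] [DecidableEq V] [Fintype E] [DecidableEq E] (src dst : E → V)
    (hcl : ClB r w src dst) (hbr : Br src dst ∅ ∅) : FlowOn src dst ∅ ∅ := by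
  classical
  by_contra hn
  obtain ⟨s, d, ⟨c, hcov⟩, hM⟩ := exists_minC (ccB r w hw) src dst hcl hbr hn
  have h3 := threeC hc hM
  have hgi := girthC hc hM
  by_cases hl : ∀ e, s e = d e
  · exact hM.nf (flow_of_loops hl)
  push Not at hl
  obtain ⟨e, he⟩ := hl
  let G : SimpleGraph V :=
    { Adj := Adj s d
      symm := ⟨fun a b h => GiAux.adj_symm h⟩
      loopless := ⟨fun a h => h.1 rfl⟩ }
  have hG : ∀ a b, G.Adj a b ↔ Adj s d a b := fun a b => Iff.rfl
  have h12 : ∀ (w : V) (c : G.Walk w w), c.IsCycle → 12 ≤ c.length :=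
    fun w c hc => Ord.cycle_len hgi G hG c hc
  have hxy : G.Adj (s e) (d e) := ⟨he, e, Or.inl ⟨rfl, rfl⟩⟩
  -- the number of the vertices
  have hn126 : 126 ≤ (Ni G).card := by
    have h1 := moore V (Adj s d) (fun a b h => GiAux.adj_symm h) (fun a h => h.1 rfl) hgi h3
      ⟨s e, d e, hxy⟩
    refine h1.trans (card_le_card ?_)
    intro v hv
    rw [mem_filter] at hv
    unfold Ni
    exact mem_filter.2 ⟨mem_univ _, hv.2⟩
  have hnR : (126 : ℝ) ≤ (Ni G).card := by exact_mod_cast hn126
  -- the balls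
  set B : ι → Finset V := fun i => (Ni G).filter (fun x => Near s d (r i) (c i) x) with hB
  have hball : ∀ i, 31 * ((B i).card : ℝ) ≤ 31 + (2 ^ r i - 1) * ((Ni G).card - 33) := by
    intro i
    have hp1 : (1 : ℝ) ≤ 2 ^ r i := one_le_pow₀ (by norm_num)
    by_cases hi : ∃ y, G.Adj (c i) y
    · obtain ⟨y, hy⟩ := hi
      by_cases hr : r i ≤ 5
      · have h1 := ball h12 h3 hy hr
        have h2 : (B i).card ≤ ((range (r i + 1)).biUnion fun j => Lv G j (c i)).card := by
          refine card_le_card ?_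
          intro x hx
          rw [hB] at hx
          obtain ⟨_, hx⟩ := mem_filter.1 hx
          obtain ⟨p, hp⟩ := near_walk G hG hx
          have hp' : p.bypass.length ≤ r i := p.length_bypass_le_length.trans hp
          exact mem_biUnion.2 ⟨p.bypass.length, mem_range.2 (by omega),
            mem_Lv.2 ⟨p.bypass, p.bypass_isPath, rfl⟩⟩
        have h3 : 31 * (B i).card + (2 ^ r i - 1) * 33 ≤ 31 + (2 ^ r i - 1) * (Ni G).card := by
          omega
        have h4 : 1 ≤ 2 ^ r i := Nat.one_le_two_pow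
        have h5 : (31 : ℝ) * (B i).card + (2 ^ r i - 1) * 33 ≤
            31 + (2 ^ r i - 1) * (Ni G).card := by
          have h6 : (((2 ^ r i - 1 : ℕ)) : ℝ) = 2 ^ r i - 1 := by
            rw [Nat.cast_sub h4]
            norm_num
          rw [← h6]
          exact_mod_cast h3
        linarith
      · push Not at hr
        have h1 : (B i).card ≤ (Ni G).card := card_le_card (filter_subset _ _)
        have h2 : ((B i).card : ℝ) ≤ (Ni G).card := by exact_mod_cast h1
        have h3 : (64 : ℝ) ≤ 2 ^ r i := by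
          calc (64 : ℝ) = 2 ^ 6 := by norm_num
            _ ≤ 2 ^ r i := pow_le_pow_right₀ (by norm_num) hr
        nlinarith
    · have h1 : B i = ∅ := by
        rw [eq_empty_iff_forall_notMem]
        intro x hx
        rw [hB] at hx
        obtain ⟨hx1, hx2⟩ := mem_filter.1 hx
        unfold Ni at hx1
        obtain ⟨y, hy⟩ := (mem_filter.1 hx1).2
        obtain ⟨p, _⟩ := near_walk G hG hx2
        exact hi (Ord.nbr hy p.reverse)
      rw [h1, card_empty, Nat.cast_zero, mul_zero]
      nlinarith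
  -- the number of the vertices is at most the weighted number of the vertices in the balls
  have hsum : ((Ni G).card : ℝ) ≤ ∑ i, w i * (B i).card := by
    calc ((Ni G).card : ℝ) = ∑ x ∈ Ni G, (1 : ℝ) := by simp
      _ ≤ ∑ x ∈ Ni G, ∑ i, (if Near s d (r i) (c i) x then w i else 0) := by
          refine sum_le_sum fun x hx => ?_
          unfold Ni at hx
          obtain ⟨y, hy⟩ := (mem_filter.1 hx).2
          exact hcov x (Ord.three_dg h3 hy)
      _ = ∑ i, ∑ x ∈ Ni G, (if Near s d (r i) (c i) x then w i else 0) := sum_comm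
      _ = ∑ i, w i * (B i).card := by
          refine sum_congr rfl fun i _ => ?_
          rw [← sum_filter, sum_const, nsmul_eq_mul, mul_comm]
  have hS : 31 * ((Ni G).card : ℝ) ≤
      31 * ∑ i, w i + (∑ i, w i * (2 ^ r i - 1)) * ((Ni G).card - 33) := by
    calc 31 * ((Ni G).card : ℝ) ≤ 31 * ∑ i, w i * (B i).card := by linarith
      _ = ∑ i, w i * (31 * ((B i).card : ℝ)) := by
          rw [mul_sum]
          exact sum_congr rfl fun i _ => by ring
      _ ≤ ∑ i, w i * (31 + (2 ^ r i - 1) * ((Ni G).card - 33)) :=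
          sum_le_sum fun i _ => mul_le_mul_of_nonneg_left (hball i) (hw i)
      _ = 31 * ∑ i, w i + (∑ i, w i * (2 ^ r i - 1)) * ((Ni G).card - 33) := by
          rw [mul_sum, sum_mul, ← sum_add_distrib]
          exact sum_congr rfl fun i _ => by ring
  have h9 : 0 ≤ (31 - ∑ i, w i * (2 ^ r i - 1)) * (((Ni G).card : ℝ) - 126) :=
    mul_nonneg (by linarith) (by linarith)
  nlinarith

end Pool.Agent.R129.Ball
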